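import Pool.Agent.helper19.MX.SpecD

/-! Row mx:LIN. -/

namespace MX

open Pool.Agent.helper53.AU AN
open scoped Classical Topology

noncomputable section

section

variable {k F : Type} [Field k] [Field F] [Algebra k F]

theorem LIN_equiv {x : F} (hx : Transcendental k x) (htop : IntermediateField.adjoin k ({x} : Set F) = ⊤) :
    ∃ E : RatFunc k ≃ₐ[k] F, ∀ p : Polynomial k, E (algebraMap (Polynomial k) (RatFunc k) p) = Polynomial.aeval x p := by
  refine ⟨(RatFunc.algEquivOfTranscendental x hx).trans ((IntermediateField.equivOfEq htop).trans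
    IntermediateField.topEquiv), fun p => ?_⟩
  rw [AlgEquiv.trans_apply, AlgEquiv.trans_apply, RatFunc.algEquivOfTranscendental_algebraMap]
  have h1 : ((IntermediateField.equivOfEq htop).trans IntermediateField.topEquiv)
      (Polynomial.aeval (IntermediateField.AdjoinSimple.gen k x) p) = Polynomial.aeval
      (((IntermediateField.equivOfEq htop).trans IntermediateField.topEquiv)
        (IntermediateField.AdjoinSimple.gen k x)) p :=
    (Polynomial.aeval_algHom_apply ((IntermediateField.equivOfEq htop).trans IntermediateField.topEquiv).toAlgHom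
      (IntermediateField.AdjoinSimple.gen k x) p).symm
  exact h1

/-- the place at infinity -/
def LIN_place (E : RatFunc k ≃ₐ[k] F) : Place k F where
  ord f := - RatFunc.intDegree (E.symm f)
  ord_zero := by rw [map_zero, RatFunc.intDegree_zero, neg_zero]
  ord_mul a b ha hb := by
    rw [map_mul, RatFunc.intDegree_mul (by simpa using ha) (by simpa using hb)]
    ring
  ord_add a b ha hb hab := by
    rw [map_add]
    have h := RatFunc.intDegree_add_le (x := E.symm a) (y := E.symm b) (by simpa using hb)
      (by rw [← map_add]; exact (map_ne_zero E.symm).mpr hab)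
    rcases le_max_iff.mp h with h1 | h1
    · exact min_le_iff.mpr (Or.inl (by omega))
    · exact min_le_iff.mpr (Or.inr (by omega))
  ord_const c hc := by
    have h1 : E.symm (algebraMap k F c) = RatFunc.C c := by
      rw [AlgEquiv.commutes]
      rfl
    rw [h1, RatFunc.intDegree_C, neg_zero]
  exists_uniformizer := by
    refine ⟨E (RatFunc.X)⁻¹, ?_, ?_⟩
    · rw [map_inv₀]
      exact inv_ne_zero ((map_ne_zero E).mpr RatFunc.X_ne_zero)
    · rw [AlgEquiv.symm_apply_apply, RatFunc.intDegree_inv, RatFunc.intDegree_X]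
      rfl

/-- the order of a polynomial in `x` at a pole of `x` -/
theorem LIN_ord {x : F} (hx : Transcendental k x) (P : Place k F) (hP : P.ord x < 0) :
    ∀ (n : ℕ) (p : Polynomial k), p ≠ 0 → p.natDegree = n → Polynomial.aeval x p ≠ 0 ∧
      P.ord (Polynomial.aeval x p) = n * P.ord x := by
  have hx0 : x ≠ 0 := by
    rintro rfl
    rw [P.ord_zero] at hP
    exact lt_irrefl _ hP
  intro n
  induction n using Nat.strong_induction_on with
  | _ n ih =>
    intro p hp hn
    have hlc : p.leadingCoeff ≠ 0 := Polynomial.leadingCoeff_ne_zero.mpr hp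
    have hlc' : algebraMap k F p.leadingCoeff ≠ 0 := by simpa using hlc
    set M : F := algebraMap k F p.leadingCoeff * x ^ n with hM
    have hM0 : M ≠ 0 := mul_ne_zero hlc' (pow_ne_zero _ hx0)
    have hMo : P.ord M = n * P.ord x := by
      rw [hM, P.ord_mul _ _ hlc' (pow_ne_zero _ hx0), P.ord_const _ hlc, P.ord_pow hx0, zero_add]
    have hdec : Polynomial.aeval x p = M + Polynomial.aeval x p.eraseLead := by
      conv_lhs => rw [← Polynomial.eraseLead_add_monomial_natDegree_leadingCoeff p]
      rw [map_add, Polynomial.aeval_monomial, hn, add_comm]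
    have hge : P.Ge (P.ord M + 1) (Polynomial.aeval x p.eraseLead) := by
      by_cases h0 : p.eraseLead = 0
      · rw [h0, map_zero]; exact P.ge_zero _
      · have hlt : p.eraseLead.natDegree < n := by
          rw [← hn]
          rcases Polynomial.eraseLead_natDegree_lt_or_eraseLead_eq_zero p with h | h
          · exact h
          · exact absurd h h0
        have h2 := ih _ hlt p.eraseLead h0 rfl
        right
        rw [h2.2, hMo]
        have h3 : ((p.eraseLead.natDegree : ℤ) + 1) ≤ n := by exact_mod_cast hlt
        nlinarith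
    have h4 := Place.ord_add_eq hM0 hge
    rw [hdec, h4.2, hMo]
    exact ⟨h4.1, rfl⟩

end

theorem LIN : LIN_stmt := by
  intro k F _ _ _ _ x hx htop
  obtain ⟨E, hE⟩ := LIN_equiv hx htop
  have hEs : ∀ p : Polynomial k, E.symm (Polynomial.aeval x p) = algebraMap (Polynomial k) (RatFunc k) p := by
    intro p
    rw [← hE, AlgEquiv.symm_apply_apply]
  set P := LIN_place E with hPdef
  have hPo : ∀ f : F, P.ord f = - RatFunc.intDegree (E.symm f) := fun f => rfl
  have hPx : P.ord x = -1 := by
    have h1 := hEs Polynomial.X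
    rw [Polynomial.aeval_X, RatFunc.algebraMap_X] at h1
    rw [hPo, h1, RatFunc.intDegree_X]
  have hPlt : P.ord x < 0 := by rw [hPx]; norm_num
  have hfrac : ∀ f : F, ∃ p q : Polynomial k, q ≠ 0 ∧ f = Polynomial.aeval x p / Polynomial.aeval x q := by
    intro f
    refine ⟨(E.symm f).num, (E.symm f).denom, RatFunc.denom_ne_zero _, ?_⟩
    rw [← hE, ← hE, ← map_div₀, RatFunc.num_div_denom, AlgEquiv.apply_symm_apply]
  refine ⟨P, ?_, hPx, ?_, ?_⟩
  · -- degree one
    intro f hf
    by_cases hf0 : f = 0
    · exact ⟨0, by rw [hf0, map_zero, sub_zero]; exact P.ge_zero _⟩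
    obtain ⟨p, q, hq, hfpq⟩ := hfrac f
    have hp : p ≠ 0 := by
      rintro rfl
      rw [map_zero, zero_div] at hfpq
      exact hf0 hfpq
    have hop := LIN_ord hx P hPlt _ p hp rfl
    have hoq := LIN_ord hx P hPlt _ q hq rfl
    have hof : P.ord f = (q.natDegree : ℤ) - p.natDegree := by
      have h1 : f * Polynomial.aeval x q = Polynomial.aeval x p := by
        rw [hfpq, div_mul_cancel₀ _ hoq.1]
      have h2 := P.ord_mul f _ hf0 hoq.1
      rw [h1, hop.2, hoq.2, hPx] at h2
      omega
    have hle : p.natDegree ≤ q.natDegree := by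
      have := hf.le hf0
      omega
    have hqlc : q.leadingCoeff ≠ 0 := Polynomial.leadingCoeff_ne_zero.mpr hq
    set c : k := p.coeff q.natDegree / q.leadingCoeff with hc
    refine ⟨c, ?_⟩
    have hdiff : f - algebraMap k F c = Polynomial.aeval x (p - Polynomial.C c * q) / Polynomial.aeval x q := by
      rw [map_sub, map_mul, Polynomial.aeval_C, sub_div, mul_div_cancel_right₀ _ hoq.1, ← hfpq]
    by_cases hr : p - Polynomial.C c * q = 0
    · rw [hdiff, hr, map_zero, zero_div]
      exact P.ge_zero _
    have hor := LIN_ord hx P hPlt _ (p - Polynomial.C c * q) hr rfl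
    have hlt : (p - Polynomial.C c * q).natDegree < q.natDegree := by
      have hle2 : (p - Polynomial.C c * q).natDegree ≤ q.natDegree :=
        (Polynomial.natDegree_sub_le _ _).trans (max_le hle (Polynomial.natDegree_C_mul_le c q))
      refine lt_of_le_of_ne hle2 (fun heq => ?_)
      have h3 : (p - Polynomial.C c * q).coeff q.natDegree = 0 := by
        rw [Polynomial.coeff_sub, Polynomial.coeff_C_mul, Polynomial.coeff_natDegree, hc,
          div_mul_cancel₀ _ hqlc, sub_self]
      rw [← heq, Polynomial.coeff_natDegree, Polynomial.leadingCoeff_eq_zero] at h3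
      exact hr h3
    right
    have h0 : f - algebraMap k F c ≠ 0 := by
      rw [hdiff]; exact div_ne_zero hor.1 hoq.1
    have h1 : (f - algebraMap k F c) * Polynomial.aeval x q = Polynomial.aeval x (p - Polynomial.C c * q) := by
      rw [hdiff, div_mul_cancel₀ _ hoq.1]
    have h2 := P.ord_mul _ _ h0 hoq.1
    rw [h1, hor.2, hoq.2, hPx] at h2
    have h4 : ((p - Polynomial.C c * q).natDegree : ℤ) < q.natDegree := by exact_mod_cast hlt
    linarith
  · -- uniqueness
    intro P' hP'
    have hx0 : x ≠ 0 := by
      rintro rfl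
      rw [P'.ord_zero] at hP'
      exact lt_irrefl _ hP'
    have hrel : ∀ f : F, P'.ord f = P.ord f * (-P'.ord x) := by
      intro f
      by_cases hf0 : f = 0
      · rw [hf0, P'.ord_zero, P.ord_zero, zero_mul]
      obtain ⟨p, q, hq, hfpq⟩ := hfrac f
      have hp : p ≠ 0 := by
        rintro rfl
        rw [map_zero, zero_div] at hfpq
        exact hf0 hfpq
      have hop := LIN_ord hx P hPlt _ p hp rfl
      have hoq := LIN_ord hx P hPlt _ q hq rfl
      have hop' := LIN_ord hx P' hP' _ p hp rfl
      have hoq' := LIN_ord hx P' hP' _ q hq rfl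
      have h1 : f * Polynomial.aeval x q = Polynomial.aeval x p := by
        rw [hfpq, div_mul_cancel₀ _ hoq.1]
      have h2 := P.ord_mul f _ hf0 hoq.1
      have h2' := P'.ord_mul f _ hf0 hoq.1
      rw [h1, hop.2, hoq.2, hPx] at h2
      rw [h1, hop'.2, hoq'.2] at h2'
      linear_combination -h2' - (P'.ord x) * h2
    obtain ⟨t, ht0, ht1⟩ := P'.exists_uniformizer
    have h3 := hrel t
    rw [ht1] at h3
    have h4 : -P'.ord x = 1 := by
      have h5 : (-P'.ord x) ∣ 1 := ⟨P.ord t, by rw [h3]; ring⟩
      have h6 : 0 ≤ -P'.ord x := by omega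
      exact Int.eq_one_of_dvd_one h6 h5
    refine Place.ext ?_
    funext f
    rw [hrel f, h4, mul_one]
  · -- odd degree
    intro φ u hodd hge
    have hφ : φ ≠ 0 := by
      rintro rfl
      rw [Polynomial.natDegree_zero] at hodd
      exact absurd hodd (by decide)
    have hoφ := LIN_ord hx P hPlt _ φ hφ rfl
    rw [hPx] at hoφ
    have hpos : 0 < φ.natDegree := hodd.pos
    by_cases hu : P.Ge 0 u
    · have h1 : P.Ge 0 (u ^ 2 + u) := by
        have h2 : P.Ge 0 (u ^ 2) := by
          have := hu.pow 2
          simpa using this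
        exact h2.add hu
      have h3 : P.Ge 0 (Polynomial.aeval x φ) := by
        have h4 := hge.sub h1
        have h5 : Polynomial.aeval x φ + u ^ 2 + u - (u ^ 2 + u) = Polynomial.aeval x φ := by ring
        rw [h5] at h4
        exact h4
      have h6 := h3.le hoφ.1
      rw [hoφ.2] at h6
      omega
    · have hu0 : u ≠ 0 := fun h => hu (Or.inl h)
      have hulo : P.ord u < 0 := by
        by_contra h
        exact hu (Or.inr (by omega))
      have hu2 : P.ord (u ^ 2) = 2 * P.ord u := by
        rw [P.ord_pow hu0]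
        push_cast
        ring
      have h1 := Place.ord_add_eq (P := P) (f := u ^ 2) (g := u) (pow_ne_zero _ hu0) (Or.inr (by omega))
      -- φ(x) = z - (u² + u)
      have h2 : P.Ge (P.ord (-(u ^ 2 + u)) + 1) (Polynomial.aeval x φ + u ^ 2 + u) := by
        refine hge.mono ?_
        rw [P.ord_neg, h1.2]
        omega
      have h3 := Place.ord_add_eq (neg_ne_zero.mpr h1.1) h2
      have h4 : -(u ^ 2 + u) + (Polynomial.aeval x φ + u ^ 2 + u) = Polynomial.aeval x φ := by ring
      rw [h4, P.ord_neg, h1.2, hu2, hoφ.2] at h3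
      obtain ⟨m, hm⟩ := hodd
      have h5 := h3.2
      rw [hm] at h5
      push_cast at h5
      omega

end

end MX
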