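import Pool.Agent.helper19.MX.SpecA

/-! Row mx:OPS. -/

namespace MX

open Pool.Agent.helper53.AU AN
open scoped Classical Topology
open Finset (range powerset Icc)

noncomputable section

theorem OPS_sel {α β : Type} [TopologicalSpace α] [TopologicalSpace β] {a : α} {x₀ : β}
    {S : α → β → Prop} {R : α × β → Prop} (hR : ∀ᶠ q in 𝓝 (a, x₀), R q)
    (hS : ∀ U ∈ 𝓝 x₀, ∀ᶠ p in 𝓝 a, ∃ x ∈ U, S p x) : ∀ᶠ p in 𝓝 a, ∃ x, S p x ∧ R (p, x) := by
  rw [nhds_prod_eq, Filter.eventually_prod_iff] at hR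
  obtain ⟨pa, hpa, pb, hpb, hh⟩ := hR
  filter_upwards [hpa, hS {x | pb x} hpb] with p h1 h2
  obtain ⟨x, hx, h3⟩ := h2
  exact ⟨x, h3, hh h1 hx⟩

section top
variable {L : Type} [Field L] [CharP L 2] [TopologicalSpace L] [IsTopologicalDivisionRing L] [T2Space L]

/-- the coefficients of the additive polynomial -/
def OPS_G (h : ℕ) (b : ℕ → L) (j : ℕ) : L :=
  if j < h then b (h - j) else if j = h then 0 else b (j - h) ^ (2 ^ (j - h))

theorem OPS_G_cont (h : ℕ) : Continuous (fun b : ℕ → L => OPS_G h b) := by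
  refine continuous_pi (fun j => ?_)
  unfold OPS_G
  split_ifs
  · exact continuous_apply _
  · exact continuous_const
  · exact (continuous_apply _).pow _

theorem OPS_cut_cont (h j : ℕ) : Continuous (fun z : (ℕ → L) × L => cut h z.1 j) := by
  unfold cut
  split_ifs
  · exact (continuous_apply _).comp continuous_fst
  · exact continuous_const

theorem OPS_Ud_cont (h i : ℕ) : Continuous (fun z : (ℕ → L) × L => Ud h z.1 z.2 i) := by
  unfold Ud
  refine ((((OPS_cut_cont h i).add (((OPS_cut_cont h i).pow 2).mul (continuous_snd.pow _))).add ?_).add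
    (((OPS_cut_cont h (i + 1)).pow 2).mul (continuous_snd.pow _)))
  split_ifs
  · exact (OPS_cut_cont h (i - 1)).mul (continuous_snd.pow _)
  · exact continuous_const

theorem OPS_fb_cont (h : ℕ) : Continuous (fun z : (ℕ → L) × L => fb h z.1 z.2) := by
  unfold fb
  refine continuous_finsetSum _ (fun i _ => ?_)
  exact ((((continuous_apply i).comp continuous_fst).mul (continuous_snd.pow _)).mul (continuous_snd.pow _))

theorem OPS_had1 (hADD : ADD_stmt) (hHAD : HAD_stmt) (hHH : HH L) (h : ℕ) (h1 : 1 ≤ h) (b : ℕ → L)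
    (hb : b h ≠ 0) (X₀ η₀ : L) (hX : PP h b X₀ = η₀) :
    ∀ U ∈ 𝓝 X₀, ∀ᶠ p in 𝓝 (b, η₀), ∃ x ∈ U, PP h p.1 x = p.2 := by
  intro U hU
  have e1 : ∀ (b : ℕ → L) (X : L), PP h b X = ∑ j ∈ range (2 * h + 1), OPS_G h b j * X ^ (2 ^ j) :=
    fun b X => (hADD L h h1 b).2 X
  have e2 := hHAD L hHH (2 * h) (OPS_G h b) X₀ η₀ (by rw [← e1, hX]) (by
    unfold OPS_G
    rw [if_pos (by omega)]
    simpa using hb) U hU
  have e3 : Filter.Tendsto (fun p : (ℕ → L) × L => (OPS_G h p.1, p.2)) (𝓝 (b, η₀)) (𝓝 (OPS_G h b, η₀)) :=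
    (((OPS_G_cont h).comp continuous_fst).prodMk continuous_snd).tendsto (b, η₀)
  filter_upwards [e3.eventually e2] with p hp
  obtain ⟨x, hx, hx2⟩ := hp
  exact ⟨x, hx, by rw [e1]; exact hx2⟩

theorem OPS_had2 (hHAD : HAD_stmt) (hHH : HH L) (y η₀ : L) (hy : y ^ 2 + y = η₀) :
    ∀ᶠ η in 𝓝 η₀, ∃ y' : L, y' ^ 2 + y' = η := by
  have e2 := hHAD L hHH 1 (fun _ => 1) y η₀ (by
    rw [Finset.sum_range_succ, Finset.sum_range_one, ← hy]
    simp only [one_mul, pow_zero, pow_one]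
    ring) one_ne_zero Set.univ Filter.univ_mem
  have e3 : Filter.Tendsto (fun η : L => ((fun _ : ℕ => (1 : L)), η)) (𝓝 η₀) (𝓝 ((fun _ : ℕ => (1 : L)), η₀)) :=
    (continuous_const.prodMk continuous_id).tendsto η₀
  filter_upwards [e3.eventually e2] with η hη
  obtain ⟨x, -, hx⟩ := hη
  refine ⟨x, ?_⟩
  rw [Finset.sum_range_succ, Finset.sum_range_one] at hx
  simp only [one_mul, pow_zero, pow_one] at hx
  rw [← hx]
  ring

theorem OPS_had3 (hHAD : HAD_stmt) (hHH : HH L) (x₀ u₀ η₀ : L) (hx : x₀ + x₀ ^ 2 * u₀ = η₀) :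
    ∀ U ∈ 𝓝 x₀, ∀ᶠ p in 𝓝 (u₀, η₀), ∃ x ∈ U, x + x ^ 2 * p.1 = p.2 := by
  intro U hU
  have e2 := hHAD L hHH 1 (fun j => if j = 0 then 1 else u₀) x₀ η₀ (by
    rw [Finset.sum_range_succ, Finset.sum_range_one, ← hx]
    simp only [if_true, one_ne_zero, if_false, pow_zero, pow_one]
    ring) (by simp) U hU
  have e3 : Filter.Tendsto (fun p : L × L => ((fun j : ℕ => if j = 0 then (1 : L) else p.1), p.2)) (𝓝 (u₀, η₀))
      (𝓝 ((fun j : ℕ => if j = 0 then (1 : L) else u₀), η₀)) := by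
    have hc : Continuous (fun p : L × L => ((fun j : ℕ => if j = 0 then (1 : L) else p.1), p.2)) := by
      refine Continuous.prodMk (continuous_pi (fun j => ?_)) continuous_snd
      split_ifs
      · exact continuous_const
      · exact continuous_fst
    exact hc.tendsto (u₀, η₀)
  filter_upwards [e3.eventually e2] with p hp
  obtain ⟨x, hxU, hx⟩ := hp
  refine ⟨x, hxU, ?_⟩
  rw [Finset.sum_range_succ, Finset.sum_range_one] at hx
  simp only [if_true, one_ne_zero, if_false, pow_zero, pow_one] at hx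
  rw [← hx]
  ring

theorem OPS_iii (hADD : ADD_stmt) (hHAD : HAD_stmt) (hHH : HH L) (h : ℕ) (h1 : 1 ≤ h) (b : ℕ → L)
    (hb : b h ≠ 0) (d β y : L) (hd : d ≠ 0) (hP : PP h b β * d ^ (2 ^ (h + 1)) = 1)
    (hy : y ^ 2 + y = fb h b β) : ∀ᶠ z in 𝓝 (b, d), ∃ β' y' : L,
      PP h z.1 β' * z.2 ^ (2 ^ (h + 1)) = 1 ∧ y' ^ 2 + y' = fb h z.1 β' := by
  have hA : ∀ U ∈ 𝓝 β, ∀ᶠ z in 𝓝 (b, d), ∃ β' ∈ U, PP h z.1 β' = (z.2 ^ (2 ^ (h + 1)))⁻¹ := by
    intro U hU
    have e1 := OPS_had1 hADD hHAD hHH h h1 b hb β ((d ^ (2 ^ (h + 1)))⁻¹) (eq_inv_of_mul_eq_one_left hP) U hU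
    have e2 : Filter.Tendsto (fun z : (ℕ → L) × L => (z.1, (z.2 ^ (2 ^ (h + 1)))⁻¹)) (𝓝 (b, d))
        (𝓝 (b, (d ^ (2 ^ (h + 1)))⁻¹)) := by
      have e3 : Filter.Tendsto (fun z : (ℕ → L) × L => z.1) (𝓝 (b, d)) (𝓝 b) := continuous_fst.tendsto (b, d)
      have e4 : Filter.Tendsto (fun z : (ℕ → L) × L => z.2) (𝓝 (b, d)) (𝓝 d) := continuous_snd.tendsto (b, d)
      exact e3.prodMk_nhds ((e4.pow (2 ^ (h + 1))).inv₀ (pow_ne_zero _ hd))
    exact e2.eventually e1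
  have hB : ∀ᶠ q in 𝓝 ((b, d), β), ∃ y' : L, y' ^ 2 + y' = fb h q.1.1 q.2 := by
    have e1 := OPS_had2 hHAD hHH y (fb h b β) hy
    have e2 : Filter.Tendsto (fun q : ((ℕ → L) × L) × L => fb h q.1.1 q.2) (𝓝 ((b, d), β)) (𝓝 (fb h b β)) := by
      have hc : Continuous (fun q : ((ℕ → L) × L) × L => fb h q.1.1 q.2) :=
        (OPS_fb_cont h).comp ((continuous_fst.comp continuous_fst).prodMk continuous_snd)
      exact hc.tendsto ((b, d), β)
    exact e2.eventually e1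
  have hd' : ∀ᶠ z in 𝓝 (b, d), z.2 ≠ 0 := by
    have e4 : Filter.Tendsto (fun z : (ℕ → L) × L => z.2) (𝓝 (b, d)) (𝓝 d) := continuous_snd.tendsto (b, d)
    exact e4.eventually_ne hd
  filter_upwards [OPS_sel hB hA, hd'] with z hz hz0
  obtain ⟨β', h3, y', h4⟩ := hz
  refine ⟨β', y', ?_, h4⟩
  rw [h3, inv_mul_cancel₀ (pow_ne_zero _ hz0)]

theorem OPS_PP0 (hADD : ADD_stmt) (h : ℕ) (h1 : 1 ≤ h) (b : ℕ → L) : PP h b 0 = 0 := by
  have h2 := (hADD L h h1 b).1 0 0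
  rw [add_zero] at h2
  have h3 := CharTwo.add_self_eq_zero (PP h b 0)
  rw [← h2] at h3
  exact h3

end top

theorem OPS (hADD : ADD_stmt) (hIDP : IDP_stmt) (hIDE : IDE_stmt) (hCNE : CNE_stmt) (hCNG : CNG_stmt)
    (hHAD : HAD_stmt) (hDES : DES_stmt) : OPS_stmt := by
  intro L _ _ _ _ _ hHH θ h b c d β y h1 hcert hd hP hy hc hev
  set W : ℕ → L := Ud h b d with hW
  have hbh : b h ≠ 0 := hCNE L θ h b hcert
  -- reduction to W
  suffices hmain : ∀ᶠ c' in 𝓝 W, Cert L θ (h + 1) c' by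
    have hT : Filter.Tendsto (fun c' : ℕ → L => fun i => if i ≤ h + 1 then c' i else W i) (𝓝 c) (𝓝 W) := by
      have hcont : Continuous (fun c' : ℕ → L => fun i => if i ≤ h + 1 then c' i else W i) := by
        refine continuous_pi (fun i => ?_)
        split_ifs
        · exact continuous_apply i
        · exact continuous_const
      have h2 := hcont.tendsto c
      have h3 : (fun i => if i ≤ h + 1 then c i else W i) = W := by
        funext i
        split_ifs with hi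
        · exact hc i hi
        · rfl
      rw [h3] at h2
      exact h2
    filter_upwards [hT.eventually hmain] with c' hc'
    exact (hCNG L θ (h + 1) _ hc').2 c' (fun i hi => by rw [if_pos hi])
  have hWtop : W (h + 1) = b h * d := by
    rw [hW]
    unfold Ud cut
    rw [if_neg (show ¬ (h + 1 ≤ h) by omega), if_neg (show ¬ (h + 1 + 1 ≤ h) by omega),
      if_pos (show 2 ≤ h + 1 by omega), Nat.add_sub_cancel, if_pos le_rfl, Nat.sub_self]
    ring
  have hWtop0 : W (h + 1) ≠ 0 := by rw [hWtop]; exact mul_ne_zero hbh hd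
  have hPW : PP (h + 1) W d = 0 := by
    have h2 : d ^ 2 + d * d = 0 := by
      rw [← sq]; exact CharTwo.add_self_eq_zero _
    rw [hW, hIDP L h h1 b d d, h2, OPS_PP0 hADD h h1]
    ring
  -- choice of d'
  have hdsel : ∀ U ∈ 𝓝 d, ∀ᶠ c' in 𝓝 W, ∃ d' ∈ U, PP (h + 1) c' d' = 0 := by
    intro U hU
    have e1 := OPS_had1 hADD hHAD hHH (h + 1) (by omega) W hWtop0 d 0 hPW U hU
    have e2 : Filter.Tendsto (fun c' : ℕ → L => (c', (0 : L))) (𝓝 W) (𝓝 (W, 0)) :=
      (continuous_id.prodMk continuous_const).tendsto W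
    exact e2.eventually e1
  obtain ⟨B, hB, hBU⟩ := hDES L h h1 b d hd
  -- the new form
  set b' : ((ℕ → L) × L) × L → ℕ → L := fun q i => if i = 0 then q.2 else if i ≤ h then B q.1 i else b i with hb'
  have hfst : Filter.Tendsto (fun q : ((ℕ → L) × L) × L => q.1) (𝓝 ((W, d), b 0)) (𝓝 (W, d)) :=
    continuous_fst.tendsto ((W, d), b 0)
  have hsnd : Filter.Tendsto (fun q : ((ℕ → L) × L) × L => q.2) (𝓝 ((W, d), b 0)) (𝓝 (b 0)) :=
    continuous_snd.tendsto ((W, d), b 0)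
  have hq12 : Filter.Tendsto (fun q : ((ℕ → L) × L) × L => q.1.2) (𝓝 ((W, d), b 0)) (𝓝 d) :=
    (continuous_snd.comp continuous_fst).tendsto ((W, d), b 0)
  have T1 : Filter.Tendsto b' (𝓝 ((W, d), b 0)) (𝓝 b) := by
    rw [tendsto_pi_nhds]
    intro i
    by_cases hi0 : i = 0
    · have e : (fun q : ((ℕ → L) × L) × L => b' q i) = fun q => q.2 := by
        funext q; simp only [hb']; rw [if_pos hi0]
      rw [e, hi0]
      exact hsnd
    · by_cases hih : i ≤ h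
      · have e : (fun q : ((ℕ → L) × L) × L => b' q i) = fun q => B q.1 i := by
          funext q; simp only [hb']; rw [if_neg hi0, if_pos hih]
        rw [e]
        exact (hB i (by omega) hih).comp hfst
      · have e : (fun q : ((ℕ → L) × L) × L => b' q i) = fun q => b i := by
          funext q; simp only [hb']; rw [if_neg hi0, if_neg hih]
        rw [e]
        exact tendsto_const_nhds
  have T2 : Filter.Tendsto (fun q => (b' q, q.1.2)) (𝓝 ((W, d), b 0)) (𝓝 (b, d)) := T1.prodMk_nhds hq12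
  have ev1 := T1.eventually hev
  have ev2 := T2.eventually (OPS_iii hADD hHAD hHH h h1 b hbh d β y hd hP hy)
  have ev3 := hfst.eventually hBU
  have ev4 : ∀ᶠ q in 𝓝 ((W, d), b 0), (q.1.1 1 + Ud h (b' q) q.1.2 1) * q.1.2 ^ (2 ^ (h + 2)) + q.1.2 ^ (2 ^ h) ≠ 0 := by
    have t1 : Filter.Tendsto (fun q : ((ℕ → L) × L) × L => q.1.1 1) (𝓝 ((W, d), b 0)) (𝓝 (W 1)) :=
      ((continuous_apply 1).comp (continuous_fst.comp continuous_fst)).tendsto ((W, d), b 0)
    have t2 : Filter.Tendsto (fun q : ((ℕ → L) × L) × L => Ud h (b' q) q.1.2 1) (𝓝 ((W, d), b 0)) (𝓝 (Ud h b d 1)) :=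
      ((OPS_Ud_cont h 1).tendsto (b, d)).comp T2
    have t3 := ((t1.add t2).mul (hq12.pow (2 ^ (h + 2)))).add (hq12.pow (2 ^ h))
    refine t3.eventually_ne ?_
    have h2 : W 1 + Ud h b d 1 = 0 := CharTwo.add_self_eq_zero _
    rw [h2, zero_mul, zero_add]
    exact pow_ne_zero _ hd
  have ev5 : ∀ᶠ q in 𝓝 ((W, d), b 0), q.1.2 ≠ 0 := hq12.eventually_ne hd
  -- claim (**)
  have claim2 : ∀ᶠ q in 𝓝 ((W, d), b 0), q.2 + q.2 ^ 2 * q.1.2 ^ (2 ^ (h + 2)) =
      q.1.1 0 + B q.1 1 ^ 2 * q.1.2 ^ (2 ^ (h + 1)) → PP (h + 1) q.1.1 q.1.2 = 0 → Cert L θ (h + 1) q.1.1 := by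
    filter_upwards [ev1, ev2, ev3, ev4, ev5] with q g1 g2 g3 g4 g5 s1 s2
    obtain ⟨β', y', hβ', hy'⟩ := g2
    have g3' := g3 (b' q) (fun i hi1 hih => by
      simp only [hb']
      rw [if_neg (by omega), if_pos hih])
    refine Cert.step h (b' q) q.1.1 q.1.2 β' y' g1 g5 hβ' hy' ?_
    have hE : q.1.1 1 + Ud h (b' q) q.1.2 1 = 0 := by
      have h2 := hIDE L h h1 (b' q) q.1.1 q.1.2 g3'
      rw [s2] at h2
      have h3 : (q.1.1 1 + Ud h (b' q) q.1.2 1) *
          ((q.1.1 1 + Ud h (b' q) q.1.2 1) * q.1.2 ^ (2 ^ (h + 2)) + q.1.2 ^ (2 ^ h)) = 0 := by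
        rw [h2]; ring
      exact (mul_eq_zero.mp h3).resolve_right g4
    intro i hi
    rcases Nat.lt_or_ge i 2 with hi2 | hi2
    · interval_cases i
      · -- i = 0
        have e0 : cut h (b' q) 0 = q.2 := by
          unfold cut
          rw [if_pos (Nat.zero_le h)]
          simp only [hb']
          rw [if_true]
        have e1 : cut h (b' q) 1 = B q.1 1 := by
          unfold cut
          rw [if_pos h1]
          simp only [hb']
          rw [if_neg one_ne_zero, if_pos h1]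
        unfold Ud
        rw [if_neg (by omega), zero_add, e0, e1, Nat.sub_zero,
          show 2 ^ (h + 1) + 2 ^ (h + 1) = 2 ^ (h + 2) by ring, s1]
        have h2 := CharTwo.add_self_eq_zero (B q.1 1 ^ 2 * q.1.2 ^ (2 ^ (h + 1)))
        linear_combination -h2
      · -- i = 1
        have h2 := CharTwo.add_self_eq_zero (Ud h (b' q) q.1.2 1)
        linear_combination hE - h2
    · exact g3' i hi2 hi
  -- claim (*)
  have claim1 : ∀ᶠ p in 𝓝 (W, d), PP (h + 1) p.1 p.2 = 0 → Cert L θ (h + 1) p.1 := by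
    have hxsel : ∀ U ∈ 𝓝 (b 0), ∀ᶠ p in 𝓝 (W, d), ∃ x ∈ U, x + x ^ 2 * p.2 ^ (2 ^ (h + 2)) =
        p.1 0 + B p 1 ^ 2 * p.2 ^ (2 ^ (h + 1)) := by
      intro U hU
      have hW0 : b 0 + b 0 ^ 2 * d ^ (2 ^ (h + 2)) = W 0 + b 1 ^ 2 * d ^ (2 ^ (h + 1)) := by
        rw [hW]
        unfold Ud cut
        rw [if_pos (Nat.zero_le h), if_neg (by omega), zero_add, if_pos h1, Nat.sub_zero,
          show 2 ^ (h + 1) + 2 ^ (h + 1) = 2 ^ (h + 2) by ring]
        have h2 := CharTwo.add_self_eq_zero (b 1 ^ 2 * d ^ (2 ^ (h + 1)))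
        linear_combination -h2
      have e1 := OPS_had3 hHAD hHH (b 0) (d ^ (2 ^ (h + 2))) (W 0 + b 1 ^ 2 * d ^ (2 ^ (h + 1))) hW0 U hU
      have t1 : Filter.Tendsto (fun p : (ℕ → L) × L => p.2) (𝓝 (W, d)) (𝓝 d) := continuous_snd.tendsto (W, d)
      have t2 : Filter.Tendsto (fun p : (ℕ → L) × L => p.1 0) (𝓝 (W, d)) (𝓝 (W 0)) :=
        ((continuous_apply 0).comp continuous_fst).tendsto (W, d)
      have t3 := (t1.pow (2 ^ (h + 2))).prodMk_nhds (t2.add (((hB 1 le_rfl h1).pow 2).mul (t1.pow (2 ^ (h + 1)))))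
      exact t3.eventually e1
    filter_upwards [OPS_sel claim2 hxsel] with p hp hp2
    obtain ⟨x, hx1, hx2⟩ := hp
    exact hx2 hx1 hp2
  filter_upwards [OPS_sel claim1 hdsel] with c' hc'
  obtain ⟨d', hd1, hd2⟩ := hc'
  exact hd2 hd1

end

end MX
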